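import Pool.Agent.H21.ASY.Stmts

/-!
# ASY, row MAG: the main sum
-/

set_option autoImplicit false

namespace Pool.ASY

open Finset MeasureTheory Pool.Agent.H98.ABCR Pool.SHA
open scoped ArithmeticFunction.Moebius

namespace MAGx

lemma two_pow_om_le {d : ℕ} (hd : 0 < d) : 2 ^ om d ≤ d := by
  unfold om
  calc 2 ^ d.primeFactors.card ≤ ∏ p ∈ d.primeFactors, p :=
        Finset.pow_card_le_prod _ _ _ (fun p hp => (Nat.prime_of_mem_primeFactors hp).two_le)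
    _ ≤ d := Nat.le_of_dvd hd (Nat.prod_primeFactors_dvd d)

lemma six_pow_om_le {d : ℕ} (hd : 0 < d) : (6 : ℝ) ^ om d ≤ (d : ℝ) ^ 3 := by
  have h1 : (2 : ℝ) ^ om d ≤ d := by exact_mod_cast two_pow_om_le hd
  calc (6 : ℝ) ^ om d ≤ 8 ^ om d := pow_le_pow_left₀ (by norm_num) (by norm_num) _
    _ = (2 ^ om d) ^ 3 := by
        rw [← pow_mul, mul_comm, pow_mul]; norm_num
    _ ≤ (d : ℝ) ^ 3 := pow_le_pow_left₀ (by positivity) h1 3

lemma mem_sf {Y : ℝ} {d : ℕ} (hY : 0 ≤ Y) (h : d ∈ sf Y) : 0 < d ∧ (d : ℝ) ≤ Y ∧ Sqf d := by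
  unfold sf at h
  rw [Finset.mem_filter, Finset.mem_Icc] at h
  refine ⟨h.1.1, ?_, h.2⟩
  exact (Nat.le_floor_iff hY).1 h.1.2

lemma sum_six {Y : ℝ} (hY : 1 ≤ Y) : ∑ d ∈ sf Y, (6 : ℝ) ^ om d ≤ Y ^ 4 := by
  have hY0 : 0 ≤ Y := by linarith
  calc ∑ d ∈ sf Y, (6 : ℝ) ^ om d ≤ ∑ d ∈ sf Y, Y ^ 3 := by
        refine Finset.sum_le_sum fun d hd => ?_
        obtain ⟨h1, h2, -⟩ := mem_sf hY0 hd
        exact (six_pow_om_le h1).trans (pow_le_pow_left₀ (by positivity) h2 3)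
    _ = (sf Y).card * Y ^ 3 := by rw [Finset.sum_const, nsmul_eq_mul]
    _ ≤ Y * Y ^ 3 := by
        refine mul_le_mul_of_nonneg_right ?_ (by positivity)
        have h1 : (sf Y).card ≤ ⌊Y⌋₊ := by
          calc (sf Y).card ≤ (Icc 1 ⌊Y⌋₊).card := Finset.card_filter_le _ _
            _ = ⌊Y⌋₊ := by simp
        calc ((sf Y).card : ℝ) ≤ (⌊Y⌋₊ : ℝ) := by exact_mod_cast h1
          _ ≤ Y := Nat.floor_le hY0
    _ = Y ^ 4 := by ring

end MAGx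

open MAGx in
theorem mag_thm (hCNT : S_CNT) (hSCA : S_SCA) (hGGB : S_GGB) (hEXC : S_EXC) : S_MAG := by
  classical
  obtain ⟨C0, hC0, hG⟩ := hGGB
  refine ⟨max C0 4, le_max_of_le_left hC0, ?_⟩
  intro X Z Y hX hZ hY
  have hX0 : 0 < X := by linarith
  have hY0 : 0 ≤ Y := by linarith
  set e : ℝ := X ^ (1 / 3 : ℝ) with he
  have he0 : 0 < e := Real.rpow_pos_of_pos hX0 _
  have he3 : e ^ 3 = X := by
    rw [he, ← Real.rpow_natCast, ← Real.rpow_mul hX0.le]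
    norm_num
  have he2 : e ^ 2 = X ^ (2 / 3 : ℝ) := by
    rw [he, ← Real.rpow_natCast, ← Real.rpow_mul hX0.le]
    norm_num
  set lam : ℝ := Z / e with hlam
  have hlam0 : 0 < lam := div_pos (by linarith) he0
  obtain ⟨-, -, -, hGY⟩ := hG lam hlam0
  have hGY := hGY Y hY
  have hscale : ∀ E : ℝ, Ar (X * E) Z = X ^ (2 / 3 : ℝ) * Ar E lam := by
    intro E
    have h1 := hSCA.1 (X * E) Z e he0
    have h2 : X * E / e ^ 3 = E := by rw [he3]; field_simp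
    rw [h2] at h1
    rw [hlam, h1, ← he2]
    field_simp
  -- the error of one pair
  have hone : ∀ d ∈ sf Y, ∀ j : ℕ,
      |(MM (X * exc j) Z d : ℝ) - 3 ^ om d * kap d * (X ^ (2 / 3 : ℝ) * Ar (exc j) lam)| ≤
        3 ^ om d * (4 * Z * (1 + Real.log Z)) := by
    intro d hd j
    have h1 := hCNT (X * exc j) Z d (by positivity) hZ (mem_sf hY0 hd).1
    rw [hscale] at h1
    exact h1
  have hsum : ∑ d ∈ sf Y, cg lam d =
      ∑ d ∈ sf Y, ∑ j ∈ d.divisors, (μ (d / j) : ℝ) * (3 ^ om d * kap d * Ar (exc j) lam) := by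
    refine Finset.sum_congr rfl fun d hd => ?_
    unfold cg hA
    rw [if_pos (mem_sf hY0 hd).2.2, Finset.mul_sum]
    refine Finset.sum_congr rfl fun j _ => ?_
    ring
  have hdiff : |(∑ d ∈ sf Y, ∑ j ∈ d.divisors, (μ (d / j) : ℝ) * MM (X * exc j) Z d) -
      X ^ (2 / 3 : ℝ) * ∑ d ∈ sf Y, cg lam d| ≤ 4 * (Y ^ 4 * Z * (1 + Real.log Z)) := by
    rw [hsum, Finset.mul_sum, ← Finset.sum_sub_distrib]
    have hlog : 0 ≤ Real.log Z := Real.log_nonneg hZ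
    calc |∑ d ∈ sf Y, ((∑ j ∈ d.divisors, (μ (d / j) : ℝ) * (MM (X * exc j) Z d : ℝ)) -
          X ^ (2 / 3 : ℝ) * ∑ j ∈ d.divisors, (μ (d / j) : ℝ) *
            (3 ^ om d * kap d * Ar (exc j) lam))|
        ≤ ∑ d ∈ sf Y, |(∑ j ∈ d.divisors, (μ (d / j) : ℝ) * (MM (X * exc j) Z d : ℝ)) -
          X ^ (2 / 3 : ℝ) * ∑ j ∈ d.divisors, (μ (d / j) : ℝ) *
            (3 ^ om d * kap d * Ar (exc j) lam)| := Finset.abs_sum_le_sum_abs _ _
      _ ≤ ∑ d ∈ sf Y, (6 : ℝ) ^ om d * (4 * Z * (1 + Real.log Z)) := by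
          refine Finset.sum_le_sum fun d hd => ?_
          rw [Finset.mul_sum, ← Finset.sum_sub_distrib]
          calc |∑ j ∈ d.divisors, ((μ (d / j) : ℝ) * (MM (X * exc j) Z d : ℝ) -
                X ^ (2 / 3 : ℝ) * ((μ (d / j) : ℝ) * (3 ^ om d * kap d * Ar (exc j) lam)))|
              ≤ ∑ j ∈ d.divisors, |(μ (d / j) : ℝ) * (MM (X * exc j) Z d : ℝ) -
                X ^ (2 / 3 : ℝ) * ((μ (d / j) : ℝ) * (3 ^ om d * kap d * Ar (exc j) lam))| :=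
                Finset.abs_sum_le_sum_abs _ _
            _ ≤ ∑ j ∈ d.divisors, |((μ (d / j) : ℤ) : ℝ)| *
                (3 ^ om d * (4 * Z * (1 + Real.log Z))) := by
                refine Finset.sum_le_sum fun j _ => ?_
                have h1 : (μ (d / j) : ℝ) * (MM (X * exc j) Z d : ℝ) -
                    X ^ (2 / 3 : ℝ) * ((μ (d / j) : ℝ) * (3 ^ om d * kap d * Ar (exc j) lam)) =
                    (μ (d / j) : ℝ) * ((MM (X * exc j) Z d : ℝ) -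
                      3 ^ om d * kap d * (X ^ (2 / 3 : ℝ) * Ar (exc j) lam)) := by ring
                rw [h1, abs_mul]
                exact mul_le_mul_of_nonneg_left (hone d hd j) (abs_nonneg _)
            _ = (2 : ℝ) ^ om d * (3 ^ om d * (4 * Z * (1 + Real.log Z))) := by
                rw [← Finset.sum_mul, hEXC.2.2.2.2.2 d (mem_sf hY0 hd).1]
            _ = (6 : ℝ) ^ om d * (4 * Z * (1 + Real.log Z)) := by
                rw [← mul_assoc, ← mul_pow]; norm_num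
      _ = (∑ d ∈ sf Y, (6 : ℝ) ^ om d) * (4 * Z * (1 + Real.log Z)) := by
          rw [← Finset.sum_mul]
      _ ≤ Y ^ 4 * (4 * Z * (1 + Real.log Z)) := by
          refine mul_le_mul_of_nonneg_right (sum_six hY) ?_
          have : 0 ≤ Z := by linarith
          positivity
      _ = 4 * (Y ^ 4 * Z * (1 + Real.log Z)) := by ring
  have hX23 : 0 ≤ X ^ (2 / 3 : ℝ) := Real.rpow_nonneg hX0.le _
  have hY24 : 0 ≤ Y ^ (-(1 / 24) : ℝ) := Real.rpow_nonneg hY0 _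
  have hlog : 0 ≤ Real.log Z := Real.log_nonneg hZ
  have hE2 : 0 ≤ Y ^ 4 * Z * (1 + Real.log Z) := by
    have : 0 ≤ Z := by linarith
    positivity
  have hE1 : 0 ≤ X ^ (2 / 3 : ℝ) * Y ^ (-(1 / 24) : ℝ) := mul_nonneg hX23 hY24
  have hsecond : |X ^ (2 / 3 : ℝ) * (∑ d ∈ sf Y, cg lam d) - X ^ (2 / 3 : ℝ) * GG lam| ≤
      C0 * (X ^ (2 / 3 : ℝ) * Y ^ (-(1 / 24) : ℝ)) := by
    rw [← mul_sub, abs_mul, abs_of_nonneg hX23, abs_sub_comm]
    calc X ^ (2 / 3 : ℝ) * |GG lam - ∑ d ∈ sf Y, cg lam d| ≤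
          X ^ (2 / 3 : ℝ) * (C0 * Y ^ (-(1 / 24) : ℝ)) := mul_le_mul_of_nonneg_left hGY hX23
      _ = C0 * (X ^ (2 / 3 : ℝ) * Y ^ (-(1 / 24) : ℝ)) := by ring
  calc |(∑ d ∈ sf Y, ∑ j ∈ d.divisors, (μ (d / j) : ℝ) * MM (X * exc j) Z d) -
        X ^ (2 / 3 : ℝ) * GG lam|
      ≤ |(∑ d ∈ sf Y, ∑ j ∈ d.divisors, (μ (d / j) : ℝ) * MM (X * exc j) Z d) -
          X ^ (2 / 3 : ℝ) * ∑ d ∈ sf Y, cg lam d| +
        |X ^ (2 / 3 : ℝ) * (∑ d ∈ sf Y, cg lam d) - X ^ (2 / 3 : ℝ) * GG lam| :=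
        abs_sub_le _ _ _
    _ ≤ 4 * (Y ^ 4 * Z * (1 + Real.log Z)) + C0 * (X ^ (2 / 3 : ℝ) * Y ^ (-(1 / 24) : ℝ)) :=
        add_le_add hdiff hsecond
    _ ≤ max C0 4 * (Y ^ 4 * Z * (1 + Real.log Z)) +
        max C0 4 * (X ^ (2 / 3 : ℝ) * Y ^ (-(1 / 24) : ℝ)) :=
        add_le_add (mul_le_mul_of_nonneg_right (le_max_right _ _) hE2)
          (mul_le_mul_of_nonneg_right (le_max_left _ _) hE1)
    _ = max C0 4 * (X ^ (2 / 3 : ℝ) * Y ^ (-(1 / 24) : ℝ) + Y ^ 4 * Z * (1 + Real.log Z)) := by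
        ring

end Pool.ASY
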