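import Pool.Agent.H21.ASY.Stmts

/-!
# ASY, row NZX: the choice of the parameters
-/

set_option autoImplicit false

namespace Pool.ASY

open Finset MeasureTheory Pool.Agent.H98.ABCR Pool.SHA
open scoped ArithmeticFunction.Moebius

theorem nzx_thm (hTRN : S_TRN) (hMAG : S_MAG) : S_NZX := by
  classical
  obtain ⟨C1, hC1, h1⟩ := hTRN (1 / 10000) (by norm_num)
  obtain ⟨C2, hC2, h2⟩ := hMAG
  refine ⟨1 / 10000, C1 + C2 * 202, by norm_num, by linarith, ?_⟩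
  intro X Z hX hZ hZX
  have hX0 : 0 < X := by linarith
  have hZ0 : 0 < Z := by linarith
  set Y : ℝ := X ^ (1 / 20 : ℝ) with hY
  have hY1 : 1 ≤ Y := Real.one_le_rpow hX (by norm_num)
  have t1 := h1 X Z Y hX hZ hY1
  have t2 := h2 X Z Y hX hZ hY1
  -- the first error
  have e1 : Z ^ (2 + 1 / 10000 : ℝ) * Y ^ (-(1 / 72) : ℝ) ≤ X ^ (2 / 3 - 1 / 10000 : ℝ) := by
    calc Z ^ (2 + 1 / 10000 : ℝ) * Y ^ (-(1 / 72) : ℝ) ≤
          (X ^ (1 / 3 + 1 / 10000 : ℝ)) ^ (2 + 1 / 10000 : ℝ) * Y ^ (-(1 / 72) : ℝ) := by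
          refine mul_le_mul_of_nonneg_right ?_ (Real.rpow_nonneg (by positivity) _)
          exact Real.rpow_le_rpow hZ0.le hZX (by norm_num)
      _ = X ^ ((1 / 3 + 1 / 10000 : ℝ) * (2 + 1 / 10000) + (1 / 20) * (-(1 / 72))) := by
          rw [hY, ← Real.rpow_mul hX0.le, ← Real.rpow_mul hX0.le, ← Real.rpow_add hX0]
      _ ≤ X ^ (2 / 3 - 1 / 10000 : ℝ) := Real.rpow_le_rpow_of_exponent_le hX (by norm_num)
  have e2 : X ^ (2 / 3 : ℝ) * Y ^ (-(1 / 24) : ℝ) ≤ X ^ (2 / 3 - 1 / 10000 : ℝ) := by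
    rw [hY, ← Real.rpow_mul hX0.le, ← Real.rpow_add hX0]
    exact Real.rpow_le_rpow_of_exponent_le hX (by norm_num)
  have hXp : 0 < X ^ (1 / 100 : ℝ) := Real.rpow_pos_of_pos hX0 _
  have hlog : 1 + Real.log Z ≤ 201 * X ^ (1 / 100 : ℝ) := by
    have a1 : Real.log Z ≤ 2 * Real.log X := by
      calc Real.log Z ≤ Real.log (X ^ (1 / 3 + 1 / 10000 : ℝ)) := Real.log_le_log hZ0 hZX
        _ = (1 / 3 + 1 / 10000 : ℝ) * Real.log X := Real.log_rpow hX0 _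
        _ ≤ 2 * Real.log X :=
            mul_le_mul_of_nonneg_right (by norm_num) (Real.log_nonneg hX)
    have a2 : Real.log X ≤ X ^ (1 / 100 : ℝ) / (1 / 100) :=
      Real.log_le_rpow_div hX0.le (by norm_num)
    have a3 : 1 ≤ X ^ (1 / 100 : ℝ) := Real.one_le_rpow hX (by norm_num)
    have a4 : X ^ (1 / 100 : ℝ) / (1 / 100) = 100 * X ^ (1 / 100 : ℝ) := by ring
    linarith
  have e3 : Y ^ 4 * Z * (1 + Real.log Z) ≤ 201 * X ^ (2 / 3 - 1 / 10000 : ℝ) := by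
    calc Y ^ 4 * Z * (1 + Real.log Z) ≤
          Y ^ 4 * X ^ (1 / 3 + 1 / 10000 : ℝ) * (201 * X ^ (1 / 100 : ℝ)) := by
          have hp : 0 ≤ 1 + Real.log Z := by linarith [Real.log_nonneg hZ]
          exact mul_le_mul (mul_le_mul_of_nonneg_left hZX (by positivity)) hlog hp
            (by positivity)
      _ = 201 * X ^ ((1 / 20 : ℝ) * 4 + (1 / 3 + 1 / 10000) + 1 / 100) := by
          rw [Real.rpow_add hX0 ((1 / 20 : ℝ) * 4 + (1 / 3 + 1 / 10000)) (1 / 100),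
            Real.rpow_add hX0 ((1 / 20 : ℝ) * 4) (1 / 3 + 1 / 10000), hY,
            Real.rpow_mul hX0.le (1 / 20) 4]
          have : ((X ^ (1 / 20 : ℝ)) ^ (4 : ℝ) : ℝ) = (X ^ (1 / 20 : ℝ)) ^ 4 := by
            rw [← Real.rpow_natCast]; norm_num
          rw [this]
          ring
      _ ≤ 201 * X ^ (2 / 3 - 1 / 10000 : ℝ) :=
          mul_le_mul_of_nonneg_left (Real.rpow_le_rpow_of_exponent_le hX (by norm_num))
            (by norm_num)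
  have hB : 0 ≤ X ^ (2 / 3 - 1 / 10000 : ℝ) := Real.rpow_nonneg hX0.le _
  calc |(((box Z).filter (fun v => ((rad (nn v) : ℕ) : ℝ) ≤ X)).card : ℝ) -
        X ^ (2 / 3 : ℝ) * GG (Z / X ^ (1 / 3 : ℝ))|
      ≤ |(((box Z).filter (fun v => ((rad (nn v) : ℕ) : ℝ) ≤ X)).card : ℝ) -
          ∑ d ∈ sf Y, ∑ j ∈ d.divisors, (μ (d / j) : ℝ) * MM (X * exc j) Z d| +
        |(∑ d ∈ sf Y, ∑ j ∈ d.divisors, (μ (d / j) : ℝ) * MM (X * exc j) Z d) -
          X ^ (2 / 3 : ℝ) * GG (Z / X ^ (1 / 3 : ℝ))| := abs_sub_le _ _ _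
    _ ≤ C1 * Z ^ (2 + 1 / 10000 : ℝ) * Y ^ (-(1 / 72) : ℝ) +
        C2 * (X ^ (2 / 3 : ℝ) * Y ^ (-(1 / 24) : ℝ) + Y ^ 4 * Z * (1 + Real.log Z)) :=
        add_le_add t1 t2
    _ ≤ C1 * X ^ (2 / 3 - 1 / 10000 : ℝ) +
        C2 * (X ^ (2 / 3 - 1 / 10000 : ℝ) + 201 * X ^ (2 / 3 - 1 / 10000 : ℝ)) := by
        refine add_le_add ?_ (mul_le_mul_of_nonneg_left (add_le_add e2 e3) (by linarith))
        rw [mul_assoc]
        exact mul_le_mul_of_nonneg_left e1 (by linarith)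
    _ = (C1 + C2 * 202) * X ^ (2 / 3 - 1 / 10000 : ℝ) := by ring

end Pool.ASY
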